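import Mathlib

set_option autoImplicit false

namespace Pool.Agent.KS6_84.Ill

open Set

variable {E : Type*} [NormedAddCommGroup E] [InnerProductSpace ℝ E]

/-- The direction `u` illuminates the point `x` of `K` (from outside). -/
def Illum (K : Set E) (u x : E) : Prop := ∃ ε : ℝ, 0 < ε ∧ ε < 1 ∧ x + ε • u ∈ interior K

/-- `U` is an outer illuminating set of `K`. -/
def Illuminating (K U : Set E) : Prop :=
  (∀ u ∈ U, ‖u‖ = 1) ∧ ∀ x ∈ frontier K, ∃ u ∈ U, Illum K u x

/-- `U` is a primitive outer illuminating set of `K`. -/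
def Primitive (K U : Set E) : Prop :=
  Illuminating K U ∧ ∀ W ⊆ U, W ≠ U → ¬ Illuminating K W

/-- The supremum of the cardinalities of the primitive outer illuminating sets of `K`. -/
noncomputable def Iout (K : Set E) : ℕ∞ := ⨆ (U : Set E) (_ : Primitive K U), U.encard

theorem illum_of_pos {K : Set E} (hK : Convex ℝ K) {x : E} (hx : x ∈ K) {w : E} {ε : ℝ}
    (hε : 0 < ε) (h : x + ε • w ∈ interior K) {r : ℝ} (hr : 0 < r) : Illum K (r • w) x := by
  set s : ℝ := min 1 (r / (2 * ε)) with hs
  have hs0 : 0 < s := lt_min one_pos (by positivity)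
  refine ⟨s * ε / r, by positivity, ?_, ?_⟩
  · have h1 : s ≤ r / (2 * ε) := min_le_right _ _
    have h2 : s * ε / r ≤ r / (2 * ε) * ε / r := by gcongr
    have h3 : r / (2 * ε) * ε / r = 1 / 2 := by field_simp
    rw [h3] at h2
    linarith
  · have h4 : (s * ε / r) • r • w = s • (ε • w) := by
      rw [smul_smul, smul_smul]; congr 1; field_simp
    rw [h4]
    exact hK.add_smul_mem_interior hx h ⟨hs0, min_le_left _ _⟩

/-- an interior point can be moved a bit in each direction -/
theorem exists_small {K : Set E} {q : E} (hq : q ∈ interior K) (w : E) :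
    ∃ δ : ℝ, 0 < δ ∧ q + δ • w ∈ interior K := by
  have hc : ContinuousAt (fun t : ℝ => q + t • w) 0 := by fun_prop
  have hm : interior K ∈ nhds ((fun t : ℝ => q + t • w) 0) := by
    simpa using isOpen_interior.mem_nhds hq
  have h1 := hc.eventually hm
  have h2 : ∀ᶠ t : ℝ in nhdsWithin 0 (Ioi 0), q + t • w ∈ interior K :=
    h1.filter_mono nhdsWithin_le_nhds
  obtain ⟨δ, hδ, h3⟩ := (h2.and self_mem_nhdsWithin).exists
  exact ⟨δ, h3, hδ⟩

/-- the upper bound for polytopes -/
theorem encard_le_of_convexHull {V : Set E} {U : Set E} (hc : IsClosed (convexHull ℝ V))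
    (hU : Primitive (convexHull ℝ V) U) : U.encard ≤ V.encard := by
  classical
  set K := convexHull ℝ V with hK
  have hKc : Convex ℝ K := convex_convexHull ℝ V
  have hch : ∀ v : E, ∃ u : E, v ∈ frontier K → u ∈ U ∧ Illum K u v := by
    intro v
    by_cases hv : v ∈ frontier K
    · obtain ⟨u, hu, h⟩ := hU.1.2 v hv
      exact ⟨u, fun _ => ⟨hu, h⟩⟩
    · exact ⟨0, fun h => absurd h hv⟩
  choose g hg using hch
  set W : Set E := g '' (V ∩ frontier K) with hW
  have hWU : W ⊆ U := by
    rintro _ ⟨v, hv, rfl⟩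
    exact (hg v hv.2).1
  have hWi : Illuminating K W := by
    refine ⟨fun u hu => hU.1.1 u (hWU hu), ?_⟩
    set S : Set E := {x | x ∈ K ∧ (x ∈ interior K ∨ ∃ u ∈ W, Illum K u x)} with hS
    have hSc : Convex ℝ S := by
      have key : ∀ x ∈ S, ∀ y ∈ K, ∀ a b : ℝ, 0 < a → 0 ≤ b → a + b = 1 → a • x + b • y ∈ S := by
        intro x hx y hy a b ha hb hab
        refine ⟨hKc hx.1 hy ha.le hb hab, ?_⟩
        rcases hx.2 with h | ⟨u, hu, ε, h0, h1, h⟩
        · exact Or.inl (hKc.combo_interior_self_mem_interior h hy ha hb hab)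
        · refine Or.inr ⟨u, hu, a * ε, by positivity, by nlinarith, ?_⟩
          have h2 := hKc.combo_interior_self_mem_interior h hy ha hb hab
          have h3 : a • x + b • y + (a * ε) • u = a • (x + ε • u) + b • y := by
            rw [smul_add, smul_smul]; abel
          rw [h3]; exact h2
      intro x hx y hy a b ha hb hab
      rcases ha.eq_or_lt with h | h
      · have hb1 : b = 1 := by linarith
        rw [← h, hb1, zero_smul, one_smul, zero_add]; exact hy
      · exact key x hx y hy.1 a b h hb hab
    have hVS : V ⊆ S := by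
      intro v hv
      have hvK : v ∈ K := subset_convexHull ℝ V hv
      refine ⟨hvK, ?_⟩
      by_cases hi : v ∈ interior K
      · exact Or.inl hi
      · have hf : v ∈ frontier K := by
          rw [frontier, hc.closure_eq]; exact ⟨hvK, hi⟩
        exact Or.inr ⟨g v, ⟨v, ⟨hv, hf⟩, rfl⟩, (hg v hf).2⟩
    intro x hx
    have hxK : x ∈ K := hc.frontier_subset hx
    have hxS : x ∈ S := convexHull_min hVS hSc hxK
    rcases hxS.2 with h | h
    · exact absurd h (by rw [frontier] at hx; exact hx.2)
    · exact h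
  have hWe : W = U := by
    by_contra hne
    exact hU.2 W hWU hne hWi
  rw [← hWe]
  exact (Set.encard_image_le _ _).trans (Set.encard_le_encard inter_subset_left)

/-- `I^out(K)` is at most the number of extreme points -/
theorem Iout_le [FiniteDimensional ℝ E] {K : Set E} (hK : IsCompact K) (hc : Convex ℝ K) :
    Iout K ≤ (K.extremePoints ℝ).encard := by
  refine iSup₂_le fun U hU => ?_
  rcases (K.extremePoints ℝ).finite_or_infinite with hf | hi
  · have h1 : convexHull ℝ (K.extremePoints ℝ) = K := by
      have h2 := closure_convexHull_extremePoints hK hc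
      rwa [(hf.isClosed_convexHull ℝ).closure_eq] at h2
    have h3 : IsClosed (convexHull ℝ (K.extremePoints ℝ)) := hf.isClosed_convexHull ℝ
    apply encard_le_of_convexHull h3
    rwa [h1]
  · rw [hi.encard_eq]; exact le_top

end Pool.Agent.KS6_84.Ill
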