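import Mathlib
import Pool.Agent.KS6_84.Ill.Basic

set_option autoImplicit false
set_option linter.unusedSectionVars false

namespace Pool.Agent.KS6_84.Ill

open Set

variable {E : Type*} [NormedAddCommGroup E] [InnerProductSpace ℝ E]

theorem three_mem {K : Set E} (hK : Convex ℝ K) {x y z : E} (hx : x ∈ K) (hy : y ∈ K) (hz : z ∈ K)
    {a b c : ℝ} (ha : 0 ≤ a) (hb : 0 ≤ b) (hc : 0 ≤ c) (h : a + b + c = 1) :
    a • x + b • y + c • z ∈ K := by
  have h1 := hK.sum_mem (t := Finset.univ) (w := ![a, b, c]) (z := ![x, y, z])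
    (by intro i _; fin_cases i <;> simpa) (by simp [Fin.sum_univ_three, h])
    (by intro i _; fin_cases i <;> simpa)
  simpa [Fin.sum_univ_three] using h1

/-- the data of a cone: base `B` in the hyperplane `φ = c`, apex `p` with `φ p > c` -/
structure ConeData (B : Set E) (p : E) (φ : E →L[ℝ] ℝ) (c : ℝ) : Prop where
  cpt : IsCompact B
  cvx : Convex ℝ B
  base : ∀ b ∈ B, φ b = c
  apex : c < φ p
  int : (interior (convexHull ℝ (insert p B))).Nonempty

section
variable {B : Set E} {p : E} {φ : E →L[ℝ] ℝ} {c : ℝ} (H : ConeData B p φ c)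
include H

theorem ConeData.nonempty : B.Nonempty ∨ convexHull ℝ (insert p B) = {p} := by
  rcases B.eq_empty_or_nonempty with h | h
  · right; subst h; simp
  · exact Or.inl h

theorem ConeData.decomp (hB : B.Nonempty) {z : E} (hz : z ∈ convexHull ℝ (insert p B)) :
    ∃ b ∈ B, ∃ t : ℝ, 0 ≤ t ∧ t ≤ 1 ∧ z = (1 - t) • b + t • p ∧ φ z = c + t * (φ p - c) := by
  rw [convexHull_insert hB, H.cvx.convexHull_eq, mem_convexJoin] at hz
  obtain ⟨a, ha, b, hb, hz⟩ := hz
  rw [mem_singleton_iff] at ha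
  subst ha
  obtain ⟨s, t, hs, ht, hst, rfl⟩ := hz
  refine ⟨b, hb, s, hs, by linarith, ?_, ?_⟩
  · rw [show (1 - s) = t by linarith]; abel
  · simp only [map_add, map_smul, smul_eq_mul, H.base b hb]
    have : t = 1 - s := by linarith
    rw [this]; ring

theorem ConeData.convexK : Convex ℝ (convexHull ℝ (insert p B)) := convex_convexHull ℝ _

theorem ConeData.subK {b : E} (hb : b ∈ B) : b ∈ convexHull ℝ (insert p B) :=
  subset_convexHull ℝ _ (mem_insert_of_mem _ hb)

theorem ConeData.apexK : p ∈ convexHull ℝ (insert p B) :=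
  subset_convexHull ℝ _ (mem_insert _ _)

theorem ConeData.exists_center (hB : B.Nonempty) : ∃ o ∈ B, ∃ τ : ℝ, 0 < τ ∧ τ < 1 ∧
    (1 - τ) • o + τ • p ∈ interior (convexHull ℝ (insert p B)) := by
  obtain ⟨q, hq⟩ := H.int
  obtain ⟨o, ho, t, ht0, ht1, e, e2⟩ := H.decomp hB (interior_subset hq)
  have hpc : 0 < φ p - c := sub_pos.2 H.apex
  refine ⟨o, ho, t, ?_, ?_, e ▸ hq⟩
  · obtain ⟨δ, hδ, h⟩ := exists_small hq (o - p)
    obtain ⟨b, hb, s, hs0, hs1, e3, e4⟩ := H.decomp hB (interior_subset h)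
    simp only [map_add, map_smul, map_sub, smul_eq_mul, H.base o ho, e2] at e4
    have h5 : δ * (φ p - c) ≤ t * (φ p - c) := by nlinarith
    have h6 : δ ≤ t := le_of_mul_le_mul_right h5 hpc
    linarith
  · obtain ⟨δ, hδ, h⟩ := exists_small hq (p - o)
    obtain ⟨b, hb, s, hs0, hs1, e3, e4⟩ := H.decomp hB (interior_subset h)
    simp only [map_add, map_smul, map_sub, smul_eq_mul, H.base o ho, e2] at e4
    have h5 : (t + δ) * (φ p - c) ≤ 1 * (φ p - c) := by nlinarith
    have h6 : t + δ ≤ 1 := le_of_mul_le_mul_right h5 hpc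
    linarith

theorem ConeData.mem_int {o b : E} (ho : o ∈ B) (hb : b ∈ B) {τ : ℝ} (h0 : 0 < τ) (h1 : τ < 1)
    (hq : (1 - τ) • o + τ • p ∈ interior (convexHull ℝ (insert p B))) {α β : ℝ} (hα : 0 < α)
    (hβ : 0 < β) (hab : α + β ≤ 1) :
    (1 - α - β) • b + α • o + β • p ∈ interior (convexHull ℝ (insert p B)) := by
  set l : ℝ := min α β / 2 with hl
  have hm : 0 < min α β := lt_min hα hβ
  have hl0 : 0 < l := by positivity
  have hl1 : l ≤ α := by
    have := min_le_left α β
    linarith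
  have hl2 : l ≤ β := by
    have := min_le_right α β
    linarith
  have hl3 : l < 1 := by linarith
  have hl4 : (0:ℝ) < 1 - l := by linarith
  have hy := three_mem H.convexK (H.subK hb) (H.subK ho) H.apexK
    (a := (1 - α - β) / (1 - l)) (b := (α - l * (1 - τ)) / (1 - l)) (c := (β - l * τ) / (1 - l))
    (div_nonneg (by linarith) hl4.le) (div_nonneg (by nlinarith) hl4.le)
    (div_nonneg (by nlinarith) hl4.le) (by field_simp; ring)
  have h := H.convexK.combo_interior_self_mem_interior hq hy hl0 hl4.le (by ring)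
  convert h using 1
  simp only [smul_add, smul_smul]
  rw [mul_div_cancel₀ _ hl4.ne', mul_div_cancel₀ _ hl4.ne', mul_div_cancel₀ _ hl4.ne']
  module

/-- the direction from the apex to the centre illuminates everything above the base -/
theorem ConeData.illum_above {o : E} (ho : o ∈ B) {τ : ℝ} (h0 : 0 < τ) (h1 : τ < 1)
    (hq : (1 - τ) • o + τ • p ∈ interior (convexHull ℝ (insert p B))) {z : E}
    (hz : z ∈ convexHull ℝ (insert p B)) (hzc : c < φ z) {r : ℝ} (hr : 0 < r) :
    Illum (convexHull ℝ (insert p B)) (r • (o - p)) z := by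
  obtain ⟨b, hb, t, ht0, ht1, e, e2⟩ := H.decomp ⟨o, ho⟩ hz
  have hpc : 0 < φ p - c := sub_pos.2 H.apex
  have ht : 0 < t := by
    by_contra h
    have : t * (φ p - c) ≤ 0 := mul_nonpos_of_nonpos_of_nonneg (not_lt.1 h) hpc.le
    linarith
  refine illum_of_pos H.convexK hz (ε := t / 2) (by positivity) ?_ hr
  have h := H.mem_int ho hb h0 h1 hq (α := t / 2) (β := t / 2) (by positivity) (by positivity)
    (by linarith)
  convert h using 1
  rw [e]
  module

/-- the direction from `x + s (x - o)` to the apex illuminates the base point `x` -/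
theorem ConeData.illum_base {o : E} (ho : o ∈ B) {τ : ℝ} (h0 : 0 < τ) (h1 : τ < 1)
    (hq : (1 - τ) • o + τ • p ∈ interior (convexHull ℝ (insert p B))) {x : E}
    (hx : x ∈ B) {s : ℝ} (hs : 0 < s) {r : ℝ} (hr : 0 < r) :
    Illum (convexHull ℝ (insert p B)) (r • (p - (x + s • (x - o)))) x := by
  have hε : (0:ℝ) < 1 / (1 + s) := by positivity
  refine illum_of_pos H.convexK (H.subK hx) (ε := 1 / (1 + s)) hε ?_ hr
  have hsum : 1 / (1 + s) * s + 1 / (1 + s) = 1 := by field_simp; ring
  have h := H.mem_int ho hx h0 h1 hq (α := 1 / (1 + s) * s) (β := 1 / (1 + s)) (by positivity)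
    (by positivity) hsum.le
  convert h using 1
  have h3 : (1 : ℝ) - 1 / (1 + s) - 1 / (1 + s) * s = 0 := by linarith
  have h4 : (1 : ℝ) - 1 / (1 + s) * s - 1 / (1 + s) = 0 := by linarith
  have e1 : x + (1 / (1 + s)) • (p - (x + s • (x - o))) =
      ((1 : ℝ) - 1 / (1 + s) - 1 / (1 + s) * s) • x + (1 / (1 + s) * s) • o + (1 / (1 + s)) • p := by
    module
  rw [e1, h3, h4]

theorem ConeData.not_illum_down {o : E} (ho : o ∈ B) {x : E} (hx : x ∈ B) {r : ℝ} (hr : 0 < r) :
    ¬ Illum (convexHull ℝ (insert p B)) (r • (o - p)) x := by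
  rintro ⟨ε, he, -, h⟩
  obtain ⟨b, hb, t, ht0, ht1, e, e2⟩ := H.decomp ⟨o, ho⟩ (interior_subset h)
  have hpc : 0 < φ p - c := sub_pos.2 H.apex
  simp only [map_add, map_smul, map_sub, smul_eq_mul, H.base o ho, H.base x hx] at e2
  have : 0 < ε * r * (φ p - c) := by positivity
  have : 0 ≤ t * (φ p - c) := by positivity
  nlinarith

theorem ConeData.not_illum_apex (hB : B.Nonempty) {y : E} (hy : φ y = c) {r : ℝ} (hr : 0 < r) :
    ¬ Illum (convexHull ℝ (insert p B)) (r • (p - y)) p := by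
  rintro ⟨ε, he, -, h⟩
  obtain ⟨b, hb, t, ht0, ht1, e, e2⟩ := H.decomp hB (interior_subset h)
  have hpc : 0 < φ p - c := sub_pos.2 H.apex
  simp only [map_add, map_smul, map_sub, smul_eq_mul, hy] at e2
  have : 0 < ε * r * (φ p - c) := by positivity
  have : t * (φ p - c) ≤ 1 * (φ p - c) := by gcongr
  nlinarith

/-- an exposed point `v` of the base is not illuminated from a point `y` that does not exceed `v`
in the exposing direction -/
theorem ConeData.not_illum_exposed {v b0 y : E} {l : E →L[ℝ] ℝ} (hv : v ∈ B)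
    (hl : ∀ b ∈ B, l b ≤ l v ∧ (l v ≤ l b → b = v)) (hb0 : b0 ∈ B) (hne : b0 ≠ v) (hy : φ y = c)
    (hly : l y ≤ l v) {r : ℝ} (hr : 0 < r) :
    ¬ Illum (convexHull ℝ (insert p B)) (r • (p - y)) v := by
  rintro ⟨ε, he, -, h⟩
  obtain ⟨δ, hδ, h2⟩ := exists_small h (v - b0)
  obtain ⟨b, hb, t, ht0, ht1, e, e2⟩ := H.decomp ⟨v, hv⟩ (interior_subset h2)
  have hpc : 0 < φ p - c := sub_pos.2 H.apex
  simp only [map_add, map_smul, map_sub, smul_eq_mul, hy, H.base v hv, H.base b0 hb0] at e2
  have ht : t = ε * r := by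
    have : (t - ε * r) * (φ p - c) = 0 := by linarith
    rcases mul_eq_zero.1 this with h | h
    · linarith
    · exact absurd h hpc.ne'
  have e3 := congrArg l e
  simp only [map_add, map_smul, map_sub, smul_eq_mul] at e3
  have h5 : l b0 < l v := by
    rcases lt_or_ge (l b0) (l v) with h | h
    · exact h
    · exact absurd ((hl b0 hb0).2 h) hne
  have h6 : (1 - t) * l b ≤ (1 - t) * l v := by
    have := (hl b hb).1
    have : 0 ≤ 1 - t := by linarith
    gcongr
  have h7 : 0 < δ * (l v - l b0) := mul_pos hδ (by linarith)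
  have h8 : ε * r * l y ≤ ε * r * l v := by gcongr
  subst ht
  nlinarith

end

end Pool.Agent.KS6_84.Ill
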