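import Mathlib
import Pool.Agent.KS6_84.Ill.Cone

set_option autoImplicit false

namespace Pool.Agent.KS6_84.Ill

open Set

variable {E : Type*} [NormedAddCommGroup E] [InnerProductSpace ℝ E]

/-- each finite illuminating set contains a primitive one -/
theorem exists_primitive_subset {K : Set E} (U : Finset E) (hU : Illuminating K (U : Set E)) :
    ∃ W : Finset E, W ⊆ U ∧ Primitive K (W : Set E) := by
  classical
  obtain ⟨W, hW, hmin⟩ := Finset.exists_min_image
    (U.powerset.filter (fun W : Finset E => Illuminating K (W : Set E))) Finset.card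
    ⟨U, Finset.mem_filter.2 ⟨Finset.mem_powerset_self U, hU⟩⟩
  rw [Finset.mem_filter, Finset.mem_powerset] at hW
  refine ⟨W, hW.1, hW.2, ?_⟩
  intro X hX hne hXi
  have hf : X.Finite := W.finite_toSet.subset hX
  have h1 : hf.toFinset ⊆ W := by
    intro x hx
    rw [Set.Finite.mem_toFinset] at hx
    exact_mod_cast hX hx
  have h2 := hmin hf.toFinset (Finset.mem_filter.2
    ⟨Finset.mem_powerset.2 (h1.trans hW.1), by rwa [Set.Finite.coe_toFinset]⟩)
  have h3 : hf.toFinset = W := Finset.eq_of_subset_of_card_le h1 h2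
  apply hne
  rw [← h3, Set.Finite.coe_toFinset]

variable {B : Set E} {p : E} {φ : E →L[ℝ] ℝ} {c : ℝ}

theorem ConeData.card_le (H : ConeData B p φ c) (hB : B.Nonempty) (F : Finset E)
    (hF : (F : Set E) ⊆ B.exposedPoints ℝ) :
    ∃ U : Finset E, Primitive (convexHull ℝ (insert p B)) (U : Set E) ∧ F.card + 1 ≤ U.card := by
  classical
  set K := convexHull ℝ (insert p B) with hK
  obtain ⟨o, ho, τ, h0, h1, hq⟩ := H.exists_center hB
  have hpc : 0 < φ p - c := sub_pos.2 H.apex
  -- the exposing functionals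
  have hl : ∀ v : E, ∃ l : E →L[ℝ] ℝ, v ∈ F → ∀ b ∈ B, l b ≤ l v ∧ (l v ≤ l b → b = v) := by
    intro v
    by_cases hv : v ∈ F
    · obtain ⟨_, l, hl⟩ := hF hv
      exact ⟨l, fun _ => hl⟩
    · exact ⟨0, fun h => absurd h hv⟩
  choose l hl using hl
  have hFB : ∀ v ∈ F, v ∈ B := fun v hv => (hF hv).1
  -- the step sizes
  have hs : ∀ x : E, ∃ s : ℝ, 0 < s ∧ (x ∈ B → ∀ v ∈ F, v ≠ x → l v (x + s • (x - o)) ≤ l v v) := by
    intro x
    by_cases hx : x ∈ B
    · have key : ∀ v ∈ F, ∀ᶠ s : ℝ in nhdsWithin 0 (Ioi 0),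
          (v ≠ x → l v (x + s • (x - o)) ≤ l v v) := by
        intro v hv
        by_cases hvx : v = x
        · exact Filter.Eventually.of_forall fun s h => absurd hvx h
        · have hlt : l v x < l v v := by
            rcases lt_or_ge (l v x) (l v v) with h | h
            · exact h
            · exact absurd ((hl v hv x hx).2 h).symm hvx
          have hc : ContinuousAt (fun s : ℝ => l v (x + s • (x - o))) 0 := by fun_prop
          have he : ∀ᶠ s : ℝ in nhds 0, l v (x + s • (x - o)) < l v v :=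
            hc.eventually (gt_mem_nhds (by simpa using hlt))
          filter_upwards [he.filter_mono nhdsWithin_le_nhds] with s hs _
          exact hs.le
      have h2 := (Filter.eventually_all_finset F).2 key
      obtain ⟨s, hs, hs0⟩ := (h2.and self_mem_nhdsWithin).exists
      exact ⟨s, hs0, fun _ v hv hne => hs v hv hne⟩
    · exact ⟨1, one_pos, fun h => absurd h hx⟩
  choose s hs0 hs using hs
  set y : E → E := fun x => x + s x • (x - o) with hy
  have hφy : ∀ x ∈ B, φ (y x) = c := by
    intro x hx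
    simp [hy, H.base x hx, H.base o ho]
  set D : E → E := fun x => ‖p - y x‖⁻¹ • (p - y x) with hD
  have hpy : ∀ x ∈ B, p - y x ≠ 0 := by
    intro x hx h
    have : φ (p - y x) = 0 := by rw [h, map_zero]
    rw [map_sub, hφy x hx] at this
    exact hpc.ne' this
  have hpyn : ∀ x ∈ B, 0 < ‖p - y x‖⁻¹ := fun x hx => by
    have := norm_pos_iff.2 (hpy x hx)
    positivity
  have hop : o - p ≠ 0 := by
    intro h
    have : φ (o - p) = 0 := by rw [h, map_zero]
    rw [map_sub, H.base o ho] at this
    linarith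
  have hopn : 0 < ‖o - p‖⁻¹ := by
    have := norm_pos_iff.2 hop
    positivity
  set u0 : E := ‖o - p‖⁻¹ • (o - p) with hu0
  -- the covering
  set O : E → Set E := fun x => {z | Illum K (D x) z} with hO
  have hOo : ∀ x, IsOpen (O x) := by
    intro x
    have : O x = ⋃ ε : Ioo (0:ℝ) 1, (fun z : E => z + (ε : ℝ) • D x) ⁻¹' interior K := by
      ext z
      simp only [hO, mem_ofPred_eq, Illum, mem_iUnion, mem_preimage]
      constructor
      · rintro ⟨ε, h1, h2, h3⟩; exact ⟨⟨ε, h1, h2⟩, h3⟩
      · rintro ⟨⟨ε, h1, h2⟩, h3⟩; exact ⟨ε, h1, h2, h3⟩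
    rw [this]
    exact isOpen_iUnion fun ε => isOpen_interior.preimage (by fun_prop)
  have hself : ∀ x ∈ B, x ∈ O x := fun x hx =>
    H.illum_base ho h0 h1 hq hx (hs0 x) (hpyn x hx)
  obtain ⟨t, htB, hcov⟩ := H.cpt.elim_nhds_subcover O (fun x hx => (hOo x).mem_nhds (hself x hx))
  set T : Finset E := insert u0 (t.image D) with hT
  have hKcl : IsClosed K := by
    have h1 : IsCompact K := by
      rw [hK, convexHull_insert hB, H.cvx.convexHull_eq]
      have : convexJoin ℝ {p} B = (fun z : ℝ × E => z.1 • p + (1 - z.1) • z.2) '' (Icc 0 1 ×ˢ B) := by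
        ext z
        simp only [mem_convexJoin, mem_singleton_iff, exists_eq_left, mem_image, mem_prod, mem_Icc,
          Prod.exists]
        constructor
        · rintro ⟨b, hb, a, d, ha, hd, had, rfl⟩
          exact ⟨a, b, ⟨⟨ha, by linarith⟩, hb⟩, by rw [show 1 - a = d by linarith]⟩
        · rintro ⟨a, b, ⟨⟨ha, ha1⟩, hb⟩, rfl⟩
          exact ⟨b, hb, a, 1 - a, ha, by linarith, by ring, rfl⟩
      rw [this]
      exact (isCompact_Icc.prod H.cpt).image (by fun_prop)
    exact h1.isClosed
  -- `T` is illuminating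
  have hTi : Illuminating K (T : Set E) := by
    constructor
    · intro u hu
      rw [hT, Finset.coe_insert, Finset.coe_image] at hu
      rcases hu with rfl | ⟨x, hx, rfl⟩
      · rw [hu0, norm_smul, norm_inv, norm_norm, inv_mul_cancel₀ (norm_ne_zero_iff.2 hop)]
      · have := hpy x (htB x hx)
        simp only [hD]
        rw [norm_smul, norm_inv, norm_norm, inv_mul_cancel₀ (norm_ne_zero_iff.2 this)]
    · intro z hz
      have hzK : z ∈ K := hKcl.frontier_subset hz
      obtain ⟨b, hb, r, hr0, hr1, e, e2⟩ := H.decomp hB hzK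
      rcases hr0.eq_or_lt with h | h
      · rw [← h] at e
        have ez : z = b := by rw [e]; simp
        subst ez
        obtain ⟨x, hx, hzx⟩ := mem_iUnion₂.1 (hcov hb)
        exact ⟨D x, by rw [hT, Finset.coe_insert, Finset.coe_image]; exact Or.inr ⟨x, hx, rfl⟩, hzx⟩
      · refine ⟨u0, by rw [hT]; simp, ?_⟩
        exact H.illum_above ho h0 h1 hq hzK (by nlinarith) hopn
  obtain ⟨U, hUT, hU⟩ := exists_primitive_subset T hTi
  refine ⟨U, hU, ?_⟩
  have hmemT : ∀ u ∈ U, u = u0 ∨ ∃ x ∈ t, u = D x := by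
    intro u hu
    have := hUT hu
    rw [hT, Finset.mem_insert, Finset.mem_image] at this
    rcases this with h | ⟨x, hx, h⟩
    · exact Or.inl h
    · exact Or.inr ⟨x, hx, h.symm⟩
  -- base points are frontier points
  have hBf : ∀ v ∈ B, v ∈ frontier K := by
    intro v hv
    rw [frontier, hKcl.closure_eq]
    refine ⟨H.subK hv, fun hi => ?_⟩
    obtain ⟨δ, hδ, h⟩ := exists_small hi (o - p)
    obtain ⟨b, hb, r, hr0, hr1, e, e2⟩ := H.decomp hB (interior_subset h)
    simp only [map_add, map_smul, map_sub, smul_eq_mul, H.base o ho, H.base v hv] at e2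
    have : 0 < δ * (φ p - c) := by positivity
    have : 0 ≤ r * (φ p - c) := by positivity
    linarith
  have hpf : p ∈ frontier K := by
    rw [frontier, hKcl.closure_eq]
    refine ⟨H.apexK, fun hi => ?_⟩
    obtain ⟨δ, hδ, h⟩ := exists_small hi (p - o)
    obtain ⟨b, hb, r, hr0, hr1, e, e2⟩ := H.decomp hB (interior_subset h)
    simp only [map_add, map_smul, map_sub, smul_eq_mul, H.base o ho] at e2
    have : 0 < δ * (φ p - c) := by positivity
    have : r * (φ p - c) ≤ 1 * (φ p - c) := by gcongr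
    linarith
  have hu0U : u0 ∈ U := by
    obtain ⟨u, hu, hup⟩ := hU.1.2 p hpf
    rcases hmemT u hu with h | ⟨x, hx, h⟩
    · rw [← h]; exact hu
    · exfalso
      rw [h] at hup
      exact H.not_illum_apex hB (hφy x (htB x hx)) (hpyn x (htB x hx)) hup
  have hg : ∀ v : E, ∃ u : E, v ∈ F → u ∈ U ∧ Illum K u v := by
    intro v
    by_cases hv : v ∈ F
    · obtain ⟨u, hu, h⟩ := hU.1.2 v (hBf v (hFB v hv))
      exact ⟨u, fun _ => ⟨hu, h⟩⟩
    · exact ⟨0, fun h => absurd h hv⟩
  choose g hg using hg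
  have hgx : ∀ v ∈ F, g v = D v := by
    intro v hv
    obtain ⟨h2, h3⟩ := hg v hv
    rcases hmemT _ h2 with h | ⟨x, hx, h⟩
    · exfalso
      rw [h] at h3
      exact H.not_illum_down ho (hFB v hv) hopn h3
    · by_cases hxv : x = v
      · rw [h, hxv]
      · exfalso
        rw [h] at h3
        exact H.not_illum_exposed (hFB v hv) (hl v hv) (htB x hx) hxv (hφy x (htB x hx))
          (hs x (htB x hx) v hv (Ne.symm hxv)) (hpyn x (htB x hx)) h3
  have hinj : ∀ v ∈ F, ∀ w ∈ F, g v = g w → v = w := by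
    intro v hv w hw h
    by_contra hne
    have h3 := (hg w hw).2
    rw [← h, hgx v hv] at h3
    exact H.not_illum_exposed (hFB w hw) (hl w hw) (hFB v hv) hne (hφy v (hFB v hv))
      (hs v (hFB v hv) w hw (Ne.symm hne)) (hpyn v (hFB v hv)) h3
  have hsub : insert u0 (F.image g) ⊆ U := by
    intro u hu
    rw [Finset.mem_insert, Finset.mem_image] at hu
    rcases hu with rfl | ⟨v, hv, rfl⟩
    · exact hu0U
    · exact (hg v hv).1
  have hnot : u0 ∉ F.image g := by
    rw [Finset.mem_image]
    rintro ⟨v, hv, h⟩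
    have h3 := (hg v hv).2
    rw [h] at h3
    exact H.not_illum_down ho (hFB v hv) hopn h3
  calc F.card + 1 = (F.image g).card + 1 := by rw [Finset.card_image_of_injOn hinj]
    _ = (insert u0 (F.image g)).card := (Finset.card_insert_of_notMem hnot).symm
    _ ≤ U.card := Finset.card_le_card hsub

end Pool.Agent.KS6_84.Ill
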