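import Mathlib
import Pool.Agent.KS6_84.Ill.Lower

set_option autoImplicit false

namespace Pool.Agent.KS6_84.Ill

open Set

section general
variable {E : Type*} [NormedAddCommGroup E] [InnerProductSpace ℝ E]

/-- Straszewicz's theorem: a closed convex set which contains the exposed points of a compact set
contains the set. -/
theorem subset_of_exposed [FiniteDimensional ℝ E] {B C : Set E} (hB : IsCompact B)
    (hC : Convex ℝ C) (hCc : IsClosed C) (h : B.exposedPoints ℝ ⊆ C) : B ⊆ C := by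
  intro x hx
  by_contra hxC
  obtain ⟨l, u, h1, h2⟩ := geometric_hahn_banach_closed_point hC hCc hxC
  obtain ⟨n, hn⟩ : ∃ n : E, ∀ z, l z = inner ℝ n z :=
    ⟨(InnerProductSpace.toDual ℝ E).symm l, fun z => by simp⟩
  obtain ⟨D, hD⟩ := hB.isBounded.exists_norm_le
  have hD0 : 0 ≤ D := (norm_nonneg _).trans (hD x hx)
  set R : ℝ := ((2 * D) ^ 2 + 1) / (2 * (l x - u)) with hR
  have hlu : 0 < l x - u := by linarith
  have hR0 : 0 < R := by positivity
  set z : E := x - R • n with hz
  obtain ⟨y, hy, hmax⟩ := hB.exists_isMaxOn ⟨x, hx⟩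
    (f := fun b : E => ‖b - z‖ ^ 2) (by fun_prop)
  have hmax' : ∀ b ∈ B, ‖b - z‖ ^ 2 ≤ ‖y - z‖ ^ 2 := fun b hb => hmax hb
  have hexp : y ∈ B.exposedPoints ℝ := by
    refine ⟨hy, innerSL ℝ (y - z), fun b hb => ?_⟩
    have e1 : ‖b - z‖ ^ 2 = ‖b - y‖ ^ 2 + 2 * inner ℝ (b - y) (y - z) + ‖y - z‖ ^ 2 := by
      rw [← norm_add_sq_real]; congr 2; abel
    have e2 := hmax' b hb
    have e3 : inner ℝ (b - y) (y - z) = inner ℝ (y - z) b - inner ℝ (y - z) y := by
      rw [real_inner_comm, inner_sub_right]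
    simp only [innerSL_apply_apply]
    have e4 : 0 ≤ ‖b - y‖ ^ 2 := by positivity
    refine ⟨by nlinarith, fun h5 => ?_⟩
    have e5 : ‖b - y‖ ^ 2 ≤ 0 := by nlinarith
    have e6 : ‖b - y‖ = 0 := by nlinarith [norm_nonneg (b - y)]
    exact sub_eq_zero.1 (norm_eq_zero.1 e6)
  have h3 := h1 y (h hexp)
  have h4 := hmax' x hx
  have e1 : ‖y - z‖ ^ 2 = ‖y - x‖ ^ 2 + 2 * inner ℝ (y - x) (x - z) + ‖x - z‖ ^ 2 := by
    rw [← norm_add_sq_real]; congr 2; abel
  have e2 : x - z = R • n := by rw [hz]; abel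
  have e3 : inner ℝ (y - x) (R • n) = R * (l y - l x) := by
    rw [inner_smul_right, real_inner_comm, inner_sub_right, hn y, hn x]
  have e4 : ‖y - x‖ ≤ 2 * D := by
    have := norm_sub_le y x
    have := hD x hx
    have := hD y hy
    linarith
  have e5 : ‖y - x‖ ^ 2 ≤ (2 * D) ^ 2 := by gcongr
  rw [e2, e3] at e1
  rw [e2] at h4
  have e6 : 2 * (R * (l x - l y)) ≤ (2 * D) ^ 2 := by nlinarith
  have e7 : R * (l x - u) ≤ R * (l x - l y) := by gcongr
  have e8 : 2 * (R * (l x - u)) = (2 * D) ^ 2 + 1 := by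
    rw [hR]; field_simp
  linarith

theorem isCompact_cone {B : Set E} (hc : IsCompact B) (hv : Convex ℝ B) (hB : B.Nonempty) (p : E) :
    IsCompact (convexHull ℝ (insert p B)) := by
  rw [convexHull_insert hB, hv.convexHull_eq]
  have : convexJoin ℝ {p} B = (fun z : ℝ × E => z.1 • p + (1 - z.1) • z.2) '' (Icc 0 1 ×ˢ B) := by
    ext z
    simp only [mem_convexJoin, mem_singleton_iff, exists_eq_left, mem_image, mem_prod, mem_Icc,
      Prod.exists]
    constructor
    · rintro ⟨b, hb, a, d, ha, hd, had, rfl⟩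
      exact ⟨a, b, ⟨⟨ha, by linarith⟩, hb⟩, by rw [show 1 - a = d by linarith]⟩
    · rintro ⟨a, b, ⟨⟨ha, ha1⟩, hb⟩, rfl⟩
      exact ⟨b, hb, a, 1 - a, ha, by linarith, by ring, rfl⟩
  rw [this]
  exact (isCompact_Icc.prod hc).image (by fun_prop)

theorem le_Iout {K : Set E} {U : Finset E} (hU : Primitive K (U : Set E)) :
    (U.card : ℕ∞) ≤ Iout K := by
  rw [← Set.encard_coe_eq_coe_finsetCard]
  exact le_iSup₂ (f := fun (U : Set E) (_ : Primitive K U) => U.encard) (U : Set E) hU

theorem ext_cone_subset (B : Set E) (p : E) :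
    (convexHull ℝ (insert p B)).extremePoints ℝ ⊆ insert p (B.extremePoints ℝ) := by
  intro x hx
  have h1 : x ∈ insert p B := extremePoints_convexHull_subset hx
  rcases h1 with h | h
  · exact Or.inl h
  · right
    exact inter_extremePoints_subset_extremePoints_of_subset
      ((subset_insert p B).trans (subset_convexHull ℝ _)) ⟨h, hx⟩

/-- `I^out` of a cone is the number of its extreme points -/
theorem ConeData.Iout_eq [FiniteDimensional ℝ E] {B : Set E} {p : E} {φ : E →L[ℝ] ℝ} {c : ℝ}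
    (H : ConeData B p φ c) (hB : B.Nonempty) :
    Iout (convexHull ℝ (insert p B)) = ((convexHull ℝ (insert p B)).extremePoints ℝ).encard := by
  classical
  refine le_antisymm (Iout_le (isCompact_cone H.cpt H.cvx hB p) H.convexK) ?_
  rcases (B.exposedPoints ℝ).finite_or_infinite with hf | hi
  · have h1 : B ⊆ convexHull ℝ (B.exposedPoints ℝ) :=
      subset_of_exposed H.cpt (convex_convexHull ℝ _) (hf.isClosed_convexHull ℝ)
        (subset_convexHull ℝ _)
    have h2 : B = convexHull ℝ (B.exposedPoints ℝ) :=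
      h1.antisymm (convexHull_min exposedPoints_subset H.cvx)
    have h3 : B.extremePoints ℝ ⊆ B.exposedPoints ℝ := by
      conv_lhs => rw [h2]
      exact extremePoints_convexHull_subset
    obtain ⟨U, hU, hc⟩ := H.card_le hB hf.toFinset (by rw [Set.Finite.coe_toFinset])
    calc ((convexHull ℝ (insert p B)).extremePoints ℝ).encard
        ≤ (insert p (B.exposedPoints ℝ)).encard :=
          Set.encard_le_encard ((ext_cone_subset B p).trans (insert_subset_insert h3))
      _ ≤ (B.exposedPoints ℝ).encard + 1 := Set.encard_insert_le _ _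
      _ = ((hf.toFinset.card + 1 : ℕ) : ℕ∞) := by
          rw [hf.encard_eq_coe_toFinset_card]; norm_cast
      _ ≤ (U.card : ℕ∞) := by exact_mod_cast hc
      _ ≤ _ := le_Iout hU
  · have htop : Iout (convexHull ℝ (insert p B)) = ⊤ := by
      refine ENat.eq_top_iff_forall_ge.2 fun n => ?_
      obtain ⟨F, hF, hn⟩ := hi.exists_subset_card_eq n
      obtain ⟨U, hU, hc⟩ := H.card_le hB F hF
      calc (n : ℕ∞) ≤ (U.card : ℕ∞) := by
            have : n ≤ U.card := by omega
            exact_mod_cast this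
        _ ≤ _ := le_Iout hU
    rw [htop]; exact le_top

/-- unit vectors of a subset of the unit ball are extreme points -/
theorem mem_ext_of_norm {K : Set E} (hK : ∀ x ∈ K, ‖x‖ ≤ 1) {v : E} (hv : v ∈ K) (h1 : ‖v‖ = 1) :
    v ∈ K.extremePoints ℝ := by
  apply exposedPoints_subset_extremePoints
  refine ⟨hv, innerSL ℝ v, fun y hy => ?_⟩
  simp only [innerSL_apply_apply]
  have e1 : inner ℝ v v = (1:ℝ) := by rw [real_inner_self_eq_norm_sq, h1]; norm_num
  have e2 : inner ℝ v y ≤ (1:ℝ) := by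
    have := real_inner_le_norm v y
    have := hK y hy
    rw [h1] at *
    linarith
  refine ⟨by rw [e1]; exact e2, fun h => ?_⟩
  rw [e1] at h
  have e3 : ‖v - y‖ ^ 2 = ‖v‖ ^ 2 - 2 * inner ℝ v y + ‖y‖ ^ 2 := norm_sub_sq_real v y
  have e4 := hK y hy
  have e5 : ‖y‖ ^ 2 ≤ 1 := by
    have := norm_nonneg y
    nlinarith
  rw [h1] at e3
  have e6 : ‖v - y‖ ^ 2 ≤ 0 := by nlinarith
  have e7 : ‖v - y‖ = 0 := by nlinarith [norm_nonneg (v - y)]
  exact (sub_eq_zero.1 (norm_eq_zero.1 e7)).symm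

end general

end Pool.Agent.KS6_84.Ill
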