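import Mathlib
import Pool.Agent.KS6_84.Ill.Main

set_option autoImplicit false

namespace Pool.Agent.KS6_84.Ill

open Set

variable {E : Type*} [NormedAddCommGroup E] [InnerProductSpace ℝ E]

/-- the data of a centrally symmetric double cone: base `B = -B` in the hyperplane `φ = 0`, apices
`p` and `-p` -/
structure DoubleData (B : Set E) (p : E) (φ : E →L[ℝ] ℝ) : Prop where
  cpt : IsCompact B
  cvx : Convex ℝ B
  sym : ∀ b ∈ B, -b ∈ B
  base : ∀ b ∈ B, φ b = 0
  apex : 0 < φ p
  nontriv : B.Nontrivial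
  int : (interior (convexHull ℝ (insert p (insert (-p) B)))).Nonempty

/-- the double cone -/
def dbl (B : Set E) (p : E) : Set E := convexHull ℝ (insert p (insert (-p) B))

variable {B : Set E} {p : E} {φ : E →L[ℝ] ℝ}

theorem DoubleData.zero_mem (H : DoubleData B p φ) : (0 : E) ∈ B := by
  obtain ⟨b, hb⟩ := H.nontriv.nonempty
  have := H.cvx hb (H.sym b hb) (a := 1 / 2) (b := 1 / 2) (by norm_num) (by norm_num) (by norm_num)
  simpa using this

theorem DoubleData.smul_mem (H : DoubleData B p φ) {b : E} (hb : b ∈ B) {k : ℝ} (h0 : 0 ≤ k)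
    (h1 : k ≤ 1) : k • b ∈ B := by
  have := H.cvx hb H.zero_mem (a := k) (b := 1 - k) h0 (by linarith) (by ring)
  simpa using this

theorem DoubleData.eq_set (H : DoubleData B p φ) :
    dbl B p = {z | ∃ b ∈ B, ∃ t : ℝ, |t| ≤ 1 ∧ z = (1 - |t|) • b + t • p} := by
  apply Subset.antisymm
  · apply convexHull_min
    · rintro x (rfl | rfl | hx)
      · exact ⟨0, H.zero_mem, 1, by simp, by simp⟩
      · exact ⟨0, H.zero_mem, -1, by simp, by simp⟩
      · exact ⟨x, hx, 0, by simp, by simp⟩
    · rintro x ⟨b1, hb1, t1, ht1, rfl⟩ y ⟨b2, hb2, t2, ht2, rfl⟩ a b ha hb hab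
      set t := a * t1 + b * t2 with ht
      set T := a * |t1| + b * |t2| with hT
      have htT : |t| ≤ T := by
        calc |t| ≤ |a * t1| + |b * t2| := abs_add_le _ _
          _ = T := by rw [abs_mul, abs_mul, abs_of_nonneg ha, abs_of_nonneg hb]
      have hT1 : T ≤ 1 := by nlinarith
      rcases (htT.trans hT1).eq_or_lt with h1 | h1
      · have h2 : T = 1 := le_antisymm hT1 (h1 ▸ htT)
        have h3 : a * (1 - |t1|) + b * (1 - |t2|) = 0 := by
          rw [hT] at h2; linarith
        have h4 : 0 ≤ a * (1 - |t1|) := mul_nonneg ha (by linarith)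
        have h5 : 0 ≤ b * (1 - |t2|) := mul_nonneg hb (by linarith)
        have h6 : a * (1 - |t1|) = 0 := by linarith
        have h7 : b * (1 - |t2|) = 0 := by linarith
        refine ⟨0, H.zero_mem, t, h1.le, ?_⟩
        rw [smul_add, smul_add, smul_smul, smul_smul, smul_smul, smul_smul, h6, h7]
        simp only [zero_smul, smul_zero, zero_add]
        rw [← add_smul]
      · have h2 : 0 < 1 - |t| := by linarith
        refine ⟨(a * (1 - |t1|) / (1 - |t|)) • b1 + (b * (1 - |t2|) / (1 - |t|)) • b2 +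
          ((T - |t|) / (1 - |t|)) • (0 : E), ?_, t, h1.le, ?_⟩
        · apply three_mem H.cvx hb1 hb2 H.zero_mem
          · exact div_nonneg (mul_nonneg ha (by linarith)) h2.le
          · exact div_nonneg (mul_nonneg hb (by linarith)) h2.le
          · exact div_nonneg (by linarith) h2.le
          · rw [← add_div, ← add_div, div_eq_one_iff_eq h2.ne', hT]
            linarith
        · simp only [smul_add, smul_smul, smul_zero, add_zero]
          rw [mul_div_cancel₀ _ h2.ne', mul_div_cancel₀ _ h2.ne', ht, add_smul]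
          abel
  · rintro z ⟨b, hb, t, ht, rfl⟩
    have hcK : Convex ℝ (dbl B p) := convex_convexHull ℝ _
    have hbK : b ∈ dbl B p := subset_convexHull ℝ _ (by simp [hb])
    have hpK : p ∈ dbl B p := subset_convexHull ℝ _ (by simp)
    have hqK : -p ∈ dbl B p := subset_convexHull ℝ _ (by simp)
    rcases le_total 0 t with h | h
    · rw [abs_of_nonneg h] at *
      exact hcK hbK hpK (by linarith) h (by ring)
    · rw [abs_of_nonpos h] at *
      have := hcK hbK hqK (a := 1 - -t) (b := -t) (by linarith) (by linarith) (by ring)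
      convert this using 2
      simp

theorem DoubleData.phi (H : DoubleData B p φ) {z b : E} {t : ℝ} (hb : b ∈ B)
    (hz : z = (1 - |t|) • b + t • p) : φ z = t * φ p := by
  rw [hz]
  simp [H.base b hb]

theorem DoubleData.conv (_H : DoubleData B p φ) : Convex ℝ (dbl B p) := convex_convexHull ℝ _

theorem DoubleData.symK (H : DoubleData B p φ) {z : E} (hz : z ∈ dbl B p) : -z ∈ dbl B p := by
  rw [H.eq_set] at *
  obtain ⟨b, hb, t, ht, rfl⟩ := hz
  exact ⟨-b, H.sym b hb, -t, by rwa [abs_neg], by rw [abs_neg]; module⟩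

theorem DoubleData.zero_int (H : DoubleData B p φ) : (0 : E) ∈ interior (dbl B p) := by
  obtain ⟨q, hq⟩ := H.int
  have h := H.conv.combo_interior_self_mem_interior (x := q) (y := -q) hq (H.symK (interior_subset hq))
    (a := 1 / 2) (b := 1 / 2) (by norm_num) (by norm_num) (by norm_num)
  simpa using h

theorem DoubleData.shrink (H : DoubleData B p φ) {z : E} (hz : z ∈ dbl B p) {k : ℝ} (h0 : 0 ≤ k)
    (h1 : k < 1) : k • z ∈ interior (dbl B p) := by
  have h := H.conv.combo_interior_self_mem_interior H.zero_int hz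
    (a := 1 - k) (b := k) (by linarith) h0 (by ring)
  simpa using h

theorem DoubleData.isCompact (H : DoubleData B p φ) : IsCompact (dbl B p) := by
  rw [H.eq_set]
  have : {z | ∃ b ∈ B, ∃ t : ℝ, |t| ≤ 1 ∧ z = (1 - |t|) • b + t • p} =
      (fun z : ℝ × E => (1 - |z.1|) • z.2 + z.1 • p) '' (Icc (-1) 1 ×ˢ B) := by
    ext z
    simp only [mem_ofPred_eq, mem_image, mem_prod, mem_Icc, Prod.exists, abs_le]
    constructor
    · rintro ⟨b, hb, t, ht, rfl⟩; exact ⟨t, b, ⟨ht, hb⟩, rfl⟩
    · rintro ⟨t, b, ⟨ht, hb⟩, rfl⟩; exact ⟨b, hb, t, ht, rfl⟩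
  rw [this]
  exact (isCompact_Icc.prod H.cpt).image (by fun_prop)

theorem DoubleData.mem_base (H : DoubleData B p φ) {b : E} (hb : b ∈ B) : b ∈ dbl B p :=
  subset_convexHull ℝ _ (by simp [hb])

theorem DoubleData.mem_p (_ : DoubleData B p φ) : p ∈ dbl B p :=
  subset_convexHull ℝ _ (by simp)

theorem DoubleData.mem_q (_ : DoubleData B p φ) : -p ∈ dbl B p :=
  subset_convexHull ℝ _ (by simp)

/-- downwards -/
theorem DoubleData.illum_above (H : DoubleData B p φ) {z : E} (hz : z ∈ dbl B p) (hφ : 0 < φ z)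
    {r : ℝ} (hr : 0 < r) : Illum (dbl B p) (r • (-p)) z := by
  have hz' := hz
  rw [H.eq_set] at hz'
  obtain ⟨b, hb, t, ht, e⟩ := hz'
  have h1 := H.phi hb e
  have ht0 : 0 < t := by
    by_contra h
    have : t * φ p ≤ 0 := mul_nonpos_of_nonpos_of_nonneg (not_lt.1 h) H.apex.le
    linarith
  rw [abs_of_pos ht0] at *
  refine illum_of_pos H.conv hz ht0 ?_ hr
  have h2 := H.shrink (H.mem_base hb) (k := 1 - t) (by linarith) (by linarith)
  convert h2 using 1
  rw [e]; module

/-- upwards -/
theorem DoubleData.illum_below (H : DoubleData B p φ) {z : E} (hz : z ∈ dbl B p) (hφ : φ z < 0)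
    {r : ℝ} (hr : 0 < r) : Illum (dbl B p) (r • p) z := by
  have hz' := hz
  rw [H.eq_set] at hz'
  obtain ⟨b, hb, t, ht, e⟩ := hz'
  have h1 := H.phi hb e
  have ht0 : t < 0 := by
    by_contra h
    have : 0 ≤ t * φ p := mul_nonneg (not_lt.1 h) H.apex.le
    linarith
  rw [abs_of_neg ht0] at *
  refine illum_of_pos H.conv hz (ε := -t) (by linarith) ?_ hr
  have h2 := H.shrink (H.mem_base hb) (k := 1 - -t) (by linarith) (by linarith)
  convert h2 using 1
  rw [e]; module

theorem DoubleData.illum_base (H : DoubleData B p φ) {x : E} (hx : x ∈ B) {s : ℝ} (hs : 0 < s)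
    {r : ℝ} (hr : 0 < r) : Illum (dbl B p) (r • (p - (1 + s) • x)) x := by
  refine illum_of_pos H.conv (H.mem_base hx) (ε := 1 / (1 + s)) (by positivity) ?_ hr
  have h2 := H.shrink H.mem_p (k := 1 / (1 + s)) (by positivity)
    (by rw [div_lt_one (by positivity)]; linarith)
  convert h2 using 1
  rw [smul_sub, smul_smul]
  have : 1 / (1 + s) * (1 + s) = 1 := by field_simp
  rw [this]; module

theorem DoubleData.phi_le (H : DoubleData B p φ) {z : E} (hz : z ∈ dbl B p) : φ z ≤ φ p := by
  rw [H.eq_set] at hz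
  obtain ⟨b, hb, t, ht, e⟩ := hz
  rw [H.phi hb e]
  have := (abs_le.1 ht).2
  nlinarith [H.apex]

theorem DoubleData.le_phi (H : DoubleData B p φ) {z : E} (hz : z ∈ dbl B p) : -φ p ≤ φ z := by
  rw [H.eq_set] at hz
  obtain ⟨b, hb, t, ht, e⟩ := hz
  rw [H.phi hb e]
  have := (abs_le.1 ht).1
  nlinarith [H.apex]

theorem DoubleData.pos_of_exposed (H : DoubleData B p φ) {v : E} {l : E →L[ℝ] ℝ}
    (hv : v ∈ B) (hl : ∀ b ∈ B, l b ≤ l v ∧ (l v ≤ l b → b = v)) : 0 < l v := by
  have h1 := (hl (-v) (H.sym v hv)).1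
  rw [map_neg] at h1
  rcases (show 0 ≤ l v by linarith).eq_or_lt with h | h
  · exfalso
    have hall : ∀ b ∈ B, b = v := by
      intro b hb
      apply (hl b hb).2
      have h2 := (hl (-b) (H.sym b hb)).1
      rw [map_neg] at h2
      linarith
    exact H.nontriv.not_subset_singleton (fun b hb => hall b hb)
  · exact h

/-- the vertical directions do not illuminate the exposed points of the base -/
theorem DoubleData.not_illum_vert (H : DoubleData B p φ) {v : E} {l : E →L[ℝ] ℝ}
    (hv : v ∈ B) (hl : ∀ b ∈ B, l b ≤ l v ∧ (l v ≤ l b → b = v)) {r : ℝ} (hr : r ≠ 0) :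
    ¬ Illum (dbl B p) (r • p) v := by
  rintro ⟨ε, he, -, h⟩
  have hz := interior_subset h
  rw [H.eq_set] at hz
  obtain ⟨b, hb, t, ht, e⟩ := hz
  have h1 := H.phi hb e
  simp only [map_add, map_smul, smul_eq_mul, H.base v hv, zero_add] at h1
  have h2 : t = ε * r := by
    have : (t - ε * r) * φ p = 0 := by linarith
    rcases mul_eq_zero.1 this with h | h
    · linarith
    · exact absurd h H.apex.ne'
  have h3 : v = (1 - |t|) • b := by
    have : v + ε • r • p = (1 - |t|) • b + ε • r • p := by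
      rw [e, h2, smul_smul]
    exact add_right_cancel this
  have h4 := congrArg l h3
  rw [map_smul, smul_eq_mul] at h4
  have h5 := (hl b hb).1
  have h6 := H.pos_of_exposed hv hl
  have h7 : 0 < |t| := by rw [h2]; exact abs_pos.2 (mul_ne_zero he.ne' hr)
  have h8 : (1 - |t|) * l b ≤ (1 - |t|) * l v := by
    have : 0 ≤ 1 - |t| := by linarith
    gcongr
  nlinarith

theorem DoubleData.not_illum_p (H : DoubleData B p φ) {w : E} (hw : 0 < φ w) :
    ¬ Illum (dbl B p) w p := by
  rintro ⟨ε, he, -, h⟩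
  have h1 := H.phi_le (interior_subset h)
  simp only [map_add, map_smul, smul_eq_mul] at h1
  have := mul_pos he hw
  linarith

theorem DoubleData.not_illum_q_down (H : DoubleData B p φ) {w : E} (hw : φ w < 0) :
    ¬ Illum (dbl B p) w (-p) := by
  rintro ⟨ε, he, -, h⟩
  have h1 := H.le_phi (interior_subset h)
  simp only [map_add, map_smul, smul_eq_mul, map_neg] at h1
  have := mul_neg_of_pos_of_neg he hw
  linarith

theorem DoubleData.not_illum_q (H : DoubleData B p φ) {y : E} (hy : φ y = 0) (hyB : y ∉ B) {r : ℝ}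
    (hr : 0 < r) : ¬ Illum (dbl B p) (r • (p - y)) (-p) := by
  rintro ⟨ε, he, -, h⟩
  have hz := interior_subset h
  rw [H.eq_set] at hz
  obtain ⟨b, hb, t, ht, e⟩ := hz
  have h1 := H.phi hb e
  simp only [map_add, map_smul, smul_eq_mul, map_neg, map_sub, hy, sub_zero] at h1
  have her : 0 < ε * r := mul_pos he hr
  have h2 : t = ε * r - 1 := by
    have : (t - (ε * r - 1)) * φ p = 0 := by linarith
    rcases mul_eq_zero.1 this with h | h
    · linarith
    · exact absurd h H.apex.ne'
  have h3 : (ε * r) • y = (1 - |t|) • (-b) := by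
    have e2 : -p + ε • r • (p - y) = (ε * r - 1) • p - (ε * r) • y := by
      rw [smul_smul]; module
    rw [e2, ← h2] at e
    have e3 : t • p - (ε * r) • y - t • p = (1 - |t|) • b := by rw [e]; abel
    have e4 : (ε * r) • y = -((1 - |t|) • b) := by rw [← e3]; abel
    rw [e4, smul_neg]
  have h4 : y = ((1 - |t|) / (ε * r)) • (-b) := by
    rw [div_eq_inv_mul, ← smul_smul, ← h3, smul_smul, inv_mul_cancel₀ her.ne', one_smul]
  apply hyB
  rw [h4]
  refine H.smul_mem (H.sym b hb) (div_nonneg (by linarith) her.le) ?_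
  rw [div_le_one her]
  have := neg_abs_le t
  have := le_abs_self t
  linarith

theorem DoubleData.not_illum_exposed (H : DoubleData B p φ) {v b0 y : E} {l : E →L[ℝ] ℝ}
    (hv : v ∈ B) (hl : ∀ b ∈ B, l b ≤ l v ∧ (l v ≤ l b → b = v)) (hb0 : b0 ∈ B) (hne : b0 ≠ v)
    (hy : φ y = 0) (hly : l y ≤ l v) {r : ℝ} (hr : 0 < r) :
    ¬ Illum (dbl B p) (r • (p - y)) v := by
  rintro ⟨ε, he, -, h⟩
  obtain ⟨δ, hδ, h2⟩ := exists_small h (v - b0)
  have hz := interior_subset h2
  rw [H.eq_set] at hz
  obtain ⟨b, hb, t, ht, e⟩ := hz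
  have e2 := H.phi hb e
  simp only [map_add, map_smul, map_sub, smul_eq_mul, hy, H.base v hv, H.base b0 hb0] at e2
  have ht' : t = ε * r := by
    have : (t - ε * r) * φ p = 0 := by linarith
    rcases mul_eq_zero.1 this with h | h
    · linarith
    · exact absurd h H.apex.ne'
  have her : 0 < ε * r := mul_pos he hr
  have e3 := congrArg l e
  rw [abs_of_pos (ht' ▸ her)] at e3 ht
  simp only [map_add, map_smul, map_sub, smul_eq_mul] at e3
  have h5 : l b0 < l v := by
    rcases lt_or_ge (l b0) (l v) with h | h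
    · exact h
    · exact absurd ((hl b0 hb0).2 h) hne
  have h6 : (1 - t) * l b ≤ (1 - t) * l v := by
    have := (hl b hb).1
    have : 0 ≤ 1 - t := by linarith
    gcongr
  have h7 : 0 < δ * (l v - l b0) := mul_pos hδ (by linarith)
  have h8 : ε * r * l y ≤ ε * r * l v := by gcongr
  subst ht'
  nlinarith

theorem DoubleData.card_le (H : DoubleData B p φ) (F : Finset E)
    (hF : (F : Set E) ⊆ B.exposedPoints ℝ) :
    ∃ U : Finset E, Primitive (dbl B p) (U : Set E) ∧ F.card + 2 ≤ U.card := by
  classical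
  set K := dbl B p with hK
  have hKcl : IsClosed K := H.isCompact.isClosed
  -- the exposing functionals
  have hl : ∀ v : E, ∃ l : E →L[ℝ] ℝ, v ∈ F → ∀ b ∈ B, l b ≤ l v ∧ (l v ≤ l b → b = v) := by
    intro v
    by_cases hv : v ∈ F
    · obtain ⟨_, l, hl⟩ := hF hv
      exact ⟨l, fun _ => hl⟩
    · exact ⟨0, fun h => absurd h hv⟩
  choose l hl using hl
  have hFB : ∀ v ∈ F, v ∈ B := fun v hv => (hF hv).1
  -- the step sizes
  have hs : ∀ x : E, ∃ s : ℝ, 0 < s ∧ (x ∈ B → ∀ v ∈ F, v ≠ x → l v ((1 + s) • x) ≤ l v v) := by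
    intro x
    by_cases hx : x ∈ B
    · have key : ∀ v ∈ F, ∀ᶠ s : ℝ in nhdsWithin 0 (Ioi 0),
          (v ≠ x → l v ((1 + s) • x) ≤ l v v) := by
        intro v hv
        by_cases hvx : v = x
        · exact Filter.Eventually.of_forall fun s h => absurd hvx h
        · have hlt : l v x < l v v := by
            rcases lt_or_ge (l v x) (l v v) with h | h
            · exact h
            · exact absurd ((hl v hv x hx).2 h).symm hvx
          have hc : ContinuousAt (fun s : ℝ => l v ((1 + s) • x)) 0 := by fun_prop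
          have he : ∀ᶠ s : ℝ in nhds 0, l v ((1 + s) • x) < l v v :=
            hc.eventually (gt_mem_nhds (by simpa using hlt))
          filter_upwards [he.filter_mono nhdsWithin_le_nhds] with s hs _
          exact hs.le
      have h2 := (Filter.eventually_all_finset F).2 key
      obtain ⟨s, hs, hs0⟩ := (h2.and self_mem_nhdsWithin).exists
      exact ⟨s, hs0, fun _ v hv hne => hs v hv hne⟩
    · exact ⟨1, one_pos, fun h => absurd h hx⟩
  choose s hs0 hs using hs
  set y : E → E := fun x => (1 + s x) • x with hy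
  have hφy : ∀ x ∈ B, φ (y x) = 0 := by
    intro x hx
    simp [hy, H.base x hx]
  set D : E → E := fun x => ‖p - y x‖⁻¹ • (p - y x) with hD
  have hpy : ∀ x ∈ B, p - y x ≠ 0 := by
    intro x hx h
    have : φ (p - y x) = 0 := by rw [h, map_zero]
    rw [map_sub, hφy x hx, sub_zero] at this
    exact H.apex.ne' this
  have hpyn : ∀ x ∈ B, 0 < ‖p - y x‖⁻¹ := fun x hx => by
    have := norm_pos_iff.2 (hpy x hx)
    positivity
  have hp0 : p ≠ 0 := by
    intro h
    have := H.apex
    rw [h, map_zero] at this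
    exact lt_irrefl _ this
  have hpn : 0 < ‖p‖⁻¹ := by
    have := norm_pos_iff.2 hp0
    positivity
  set u0 : E := ‖p‖⁻¹ • (-p) with hu0
  set u1 : E := ‖p‖⁻¹ • p with hu1
  -- the covering of the relative boundary of the base
  set B' : Set E := B ∩ frontier K with hB'
  have hB'c : IsCompact B' := H.cpt.inter_right isClosed_frontier
  set O : E → Set E := fun x => {z | Illum K (D x) z} with hO
  have hOo : ∀ x, IsOpen (O x) := by
    intro x
    have : O x = ⋃ ε : Ioo (0:ℝ) 1, (fun z : E => z + (ε : ℝ) • D x) ⁻¹' interior K := by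
      ext z
      simp only [hO, mem_ofPred_eq, Illum, mem_iUnion, mem_preimage]
      constructor
      · rintro ⟨ε, h1, h2, h3⟩; exact ⟨⟨ε, h1, h2⟩, h3⟩
      · rintro ⟨⟨ε, h1, h2⟩, h3⟩; exact ⟨ε, h1, h2, h3⟩
    rw [this]
    exact isOpen_iUnion fun ε => isOpen_interior.preimage (by fun_prop)
  have hself : ∀ x ∈ B', x ∈ O x := fun x hx =>
    H.illum_base hx.1 (hs0 x) (hpyn x hx.1)
  obtain ⟨t, htB, hcov⟩ := hB'c.elim_nhds_subcover O (fun x hx => (hOo x).mem_nhds (hself x hx))
  have hyB : ∀ x ∈ B', y x ∉ B := by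
    intro x hx h
    have h1 : 0 < 1 + s x := by linarith [hs0 x]
    have h2 := H.shrink (H.mem_base h) (k := (1 + s x)⁻¹) (by positivity)
      (inv_lt_one_of_one_lt₀ (by linarith [hs0 x]))
    simp only [hy, smul_smul, inv_mul_cancel₀ h1.ne', one_smul] at h2
    have h3 := hx.2
    rw [frontier] at h3
    exact h3.2 h2
  set T : Finset E := insert u1 (insert u0 (t.image D)) with hT
  have hnorm : ∀ z : E, z ≠ 0 → ‖‖z‖⁻¹ • z‖ = 1 := by
    intro z hz
    rw [norm_smul, norm_inv, norm_norm, inv_mul_cancel₀ (norm_ne_zero_iff.2 hz)]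
  -- `T` is illuminating
  have hTi : Illuminating K (T : Set E) := by
    constructor
    · intro u hu
      rw [hT, Finset.coe_insert, Finset.coe_insert, Finset.coe_image] at hu
      rcases hu with rfl | rfl | ⟨x, hx, rfl⟩
      · exact hnorm p hp0
      · rw [hu0, smul_neg, norm_neg]; exact hnorm p hp0
      · exact hnorm _ (hpy x (htB x hx).1)
    · intro z hz
      have hzK : z ∈ K := hKcl.frontier_subset hz
      have hzK' := hzK
      rw [hK, H.eq_set] at hzK'
      obtain ⟨b, hb, r, hr, e⟩ := hzK'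
      have e2 := H.phi hb e
      rcases lt_trichotomy r 0 with h | h | h
      · refine ⟨u1, by rw [hT]; simp, ?_⟩
        exact H.illum_below hzK (by nlinarith [H.apex]) hpn
      · rw [h] at e
        have ez : z = b := by rw [e]; simp
        subst ez
        obtain ⟨x, hx, hzx⟩ := mem_iUnion₂.1 (hcov (show z ∈ B' from ⟨hb, hz⟩))
        exact ⟨D x, by
          rw [hT, Finset.coe_insert, Finset.coe_insert, Finset.coe_image]
          exact Or.inr (Or.inr ⟨x, hx, rfl⟩), hzx⟩
      · refine ⟨u0, by rw [hT]; simp, ?_⟩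
        exact H.illum_above hzK (by nlinarith [H.apex]) hpn
  obtain ⟨U, hUT, hU⟩ := exists_primitive_subset T hTi
  refine ⟨U, hU, ?_⟩
  have hmemT : ∀ u ∈ U, u = u1 ∨ u = u0 ∨ ∃ x ∈ t, u = D x := by
    intro u hu
    have := hUT hu
    rw [hT, Finset.mem_insert, Finset.mem_insert, Finset.mem_image] at this
    rcases this with h | h | ⟨x, hx, h⟩
    · exact Or.inl h
    · exact Or.inr (Or.inl h)
    · exact Or.inr (Or.inr ⟨x, hx, h.symm⟩)
  have hφu1 : 0 < φ u1 := by
    rw [hu1, map_smul, smul_eq_mul]; exact mul_pos hpn H.apex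
  have hφu0 : φ u0 < 0 := by
    rw [hu0, map_smul, smul_eq_mul, map_neg]
    have := mul_pos hpn H.apex
    linarith
  have hφD : ∀ x ∈ B, 0 < φ (D x) := by
    intro x hx
    simp only [hD, map_smul, smul_eq_mul, map_sub, hφy x hx, sub_zero]
    exact mul_pos (hpyn x hx) H.apex
  have hpf : p ∈ frontier K := by
    rw [frontier, hKcl.closure_eq]
    refine ⟨H.mem_p, fun hi => ?_⟩
    obtain ⟨δ, hδ, h⟩ := exists_small hi p
    have h1 := H.phi_le (interior_subset h)
    simp only [map_add, map_smul, smul_eq_mul] at h1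
    have := mul_pos hδ H.apex
    linarith
  have hqf : -p ∈ frontier K := by
    rw [frontier, hKcl.closure_eq]
    refine ⟨H.mem_q, fun hi => ?_⟩
    obtain ⟨δ, hδ, h⟩ := exists_small hi (-p)
    have h1 := H.le_phi (interior_subset h)
    simp only [map_add, map_smul, smul_eq_mul, map_neg] at h1
    have := mul_pos hδ H.apex
    linarith
  have hvf : ∀ v ∈ F, v ∈ frontier K := by
    intro v hv
    rw [frontier, hKcl.closure_eq]
    refine ⟨H.mem_base (hFB v hv), fun hi => ?_⟩
    obtain ⟨δ, hδ, h⟩ := exists_small hi v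
    have h1 := interior_subset h
    rw [hK, H.eq_set] at h1
    obtain ⟨b, hb, r, hr, e⟩ := h1
    have e2 := H.phi hb e
    simp only [map_add, map_smul, smul_eq_mul, H.base v (hFB v hv)] at e2
    have hr0 : r = 0 := by
      rcases mul_eq_zero.1 (show r * φ p = 0 by linarith) with h | h
      · exact h
      · exact absurd h H.apex.ne'
    rw [hr0] at e
    simp only [abs_zero, sub_zero, one_smul, zero_smul, add_zero] at e
    have h3 := (hl v hv b hb).1
    have h4 := H.pos_of_exposed (hFB v hv) (hl v hv)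
    rw [← e, map_add, map_smul, smul_eq_mul] at h3
    have := mul_pos hδ h4
    linarith
  have hu0U : u0 ∈ U := by
    obtain ⟨u, hu, hup⟩ := hU.1.2 p hpf
    rcases hmemT u hu with h | h | ⟨x, hx, h⟩
    · exfalso
      rw [h] at hup
      exact H.not_illum_p hφu1 hup
    · rw [← h]; exact hu
    · exfalso
      rw [h] at hup
      exact H.not_illum_p (hφD x (htB x hx).1) hup
  have hu1U : u1 ∈ U := by
    obtain ⟨u, hu, hup⟩ := hU.1.2 (-p) hqf
    rcases hmemT u hu with h | h | ⟨x, hx, h⟩
    · rw [← h]; exact hu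
    · exfalso
      rw [h] at hup
      exact H.not_illum_q_down hφu0 hup
    · exfalso
      rw [h] at hup
      exact H.not_illum_q (hφy x (htB x hx).1) (hyB x (htB x hx)) (hpyn x (htB x hx).1) hup
  have hg : ∀ v : E, ∃ u : E, v ∈ F → u ∈ U ∧ Illum K u v := by
    intro v
    by_cases hv : v ∈ F
    · obtain ⟨u, hu, h⟩ := hU.1.2 v (hvf v hv)
      exact ⟨u, fun _ => ⟨hu, h⟩⟩
    · exact ⟨0, fun h => absurd h hv⟩
  choose g hg using hg
  have hnot1 : ∀ v ∈ F, ¬ Illum K u1 v := fun v hv =>
    H.not_illum_vert (hFB v hv) (hl v hv) hpn.ne'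
  have hnot0 : ∀ v ∈ F, ¬ Illum K u0 v := by
    intro v hv
    have h := H.not_illum_vert (hFB v hv) (hl v hv) (r := -‖p‖⁻¹) (neg_ne_zero.2 hpn.ne')
    rwa [neg_smul, ← smul_neg] at h
  have hgx : ∀ v ∈ F, g v = D v := by
    intro v hv
    obtain ⟨h2, h3⟩ := hg v hv
    rcases hmemT _ h2 with h | h | ⟨x, hx, h⟩
    · exfalso
      rw [h] at h3
      exact hnot1 v hv h3
    · exfalso
      rw [h] at h3
      exact hnot0 v hv h3
    · by_cases hxv : x = v
      · rw [h, hxv]
      · exfalso
        rw [h] at h3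
        exact H.not_illum_exposed (hFB v hv) (hl v hv) (htB x hx).1 hxv (hφy x (htB x hx).1)
          (hs x (htB x hx).1 v hv (Ne.symm hxv)) (hpyn x (htB x hx).1) h3
  have hinj : ∀ v ∈ F, ∀ w ∈ F, g v = g w → v = w := by
    intro v hv w hw h
    by_contra hne
    have h3 := (hg w hw).2
    rw [← h, hgx v hv] at h3
    exact H.not_illum_exposed (hFB w hw) (hl w hw) (hFB v hv) hne (hφy v (hFB v hv))
      (hs v (hFB v hv) w hw (Ne.symm hne)) (hpyn v (hFB v hv)) h3
  have hsub : insert u1 (insert u0 (F.image g)) ⊆ U := by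
    intro u hu
    rw [Finset.mem_insert, Finset.mem_insert, Finset.mem_image] at hu
    rcases hu with rfl | rfl | ⟨v, hv, rfl⟩
    · exact hu1U
    · exact hu0U
    · exact (hg v hv).1
  have hn0 : u0 ∉ F.image g := by
    rw [Finset.mem_image]
    rintro ⟨v, hv, h⟩
    have h3 := (hg v hv).2
    rw [h] at h3
    exact hnot0 v hv h3
  have hn1 : u1 ∉ insert u0 (F.image g) := by
    rw [Finset.mem_insert, Finset.mem_image]
    rintro (h | ⟨v, hv, h⟩)
    · rw [h] at hφu1; linarith
    · have h3 := (hg v hv).2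
      rw [h] at h3
      exact hnot1 v hv h3
  calc F.card + 2 = (F.image g).card + 1 + 1 := by rw [Finset.card_image_of_injOn hinj]
    _ = (insert u0 (F.image g)).card + 1 := by rw [Finset.card_insert_of_notMem hn0]
    _ = (insert u1 (insert u0 (F.image g))).card := (Finset.card_insert_of_notMem hn1).symm
    _ ≤ U.card := Finset.card_le_card hsub

theorem ext_dbl_subset (B : Set E) (p : E) :
    (dbl B p).extremePoints ℝ ⊆ insert p (insert (-p) (B.extremePoints ℝ)) := by
  intro x hx
  have h1 : x ∈ insert p (insert (-p) B) := extremePoints_convexHull_subset hx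
  rcases h1 with h | h | h
  · exact Or.inl h
  · exact Or.inr (Or.inl h)
  · right; right
    exact inter_extremePoints_subset_extremePoints_of_subset
      (((subset_insert _ B).trans (subset_insert _ _)).trans (subset_convexHull ℝ _)) ⟨h, hx⟩

/-- `I^out` of a centrally symmetric double cone is the number of its extreme points -/
theorem DoubleData.Iout_eq [FiniteDimensional ℝ E] (H : DoubleData B p φ) :
    Iout (dbl B p) = ((dbl B p).extremePoints ℝ).encard := by
  classical
  refine le_antisymm (Iout_le H.isCompact H.conv) ?_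
  rcases (B.exposedPoints ℝ).finite_or_infinite with hf | hi
  · have h1 : B ⊆ convexHull ℝ (B.exposedPoints ℝ) :=
      subset_of_exposed H.cpt (convex_convexHull ℝ _) (hf.isClosed_convexHull ℝ)
        (subset_convexHull ℝ _)
    have h2 : B = convexHull ℝ (B.exposedPoints ℝ) :=
      h1.antisymm (convexHull_min exposedPoints_subset H.cvx)
    have h3 : B.extremePoints ℝ ⊆ B.exposedPoints ℝ := by
      conv_lhs => rw [h2]
      exact extremePoints_convexHull_subset
    obtain ⟨U, hU, hc⟩ := H.card_le hf.toFinset (by rw [Set.Finite.coe_toFinset])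
    calc ((dbl B p).extremePoints ℝ).encard
        ≤ (insert p (insert (-p) (B.exposedPoints ℝ))).encard :=
          Set.encard_le_encard ((ext_dbl_subset B p).trans
            (insert_subset_insert (insert_subset_insert h3)))
      _ ≤ (insert (-p) (B.exposedPoints ℝ)).encard + 1 := Set.encard_insert_le _ _
      _ ≤ (B.exposedPoints ℝ).encard + 1 + 1 := by gcongr; exact Set.encard_insert_le _ _
      _ = ((hf.toFinset.card + 2 : ℕ) : ℕ∞) := by
          rw [hf.encard_eq_coe_toFinset_card]; norm_cast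
      _ ≤ (U.card : ℕ∞) := by exact_mod_cast hc
      _ ≤ _ := le_Iout hU
  · have htop : Iout (dbl B p) = ⊤ := by
      refine ENat.eq_top_iff_forall_ge.2 fun n => ?_
      obtain ⟨F, hF, hn⟩ := hi.exists_subset_card_eq n
      obtain ⟨U, hU, hc⟩ := H.card_le F hF
      calc (n : ℕ∞) ≤ (U.card : ℕ∞) := by
            have : n ≤ U.card := by omega
            exact_mod_cast this
        _ ≤ _ := le_Iout hU
    rw [htop]; exact le_top

end Pool.Agent.KS6_84.Ill
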